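import Pool.Agent.W92.ET.Base

/-! Project ET, part HHb: the algebra for the integral formula for `HH` -/

set_option autoImplicit false

open MeasureTheory

namespace Pool.Agent.W403.ET

open Pool.Agent.W92.ET

/-- the integral of `s ^ (2 l) / (1 - z s ^ 2)` -/
noncomputable def RR' (z : ℝ) (l : ℕ) : ℝ := ∫ s in (0 : ℝ)..1, s ^ (2 * l) / (1 - z * s ^ 2)

lemma den_pos (z s : ℝ) (hz0 : 0 < z) (hz1 : z < 1) (hs : s ∈ Set.uIcc (0 : ℝ) 1) :
    0 < 1 - z * s ^ 2 := by
  rw [Set.uIcc_of_le zero_le_one] at hs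
  have h1 : s ^ 2 ≤ 1 := by nlinarith [hs.1, hs.2]
  nlinarith

lemma intR (z : ℝ) (hz0 : 0 < z) (hz1 : z < 1) (l : ℕ) :
    IntervalIntegrable (fun s : ℝ => s ^ (2 * l) / (1 - z * s ^ 2)) volume 0 1 := by
  apply ContinuousOn.intervalIntegrable
  apply ContinuousOn.div (by fun_prop) (by fun_prop)
  intro s hs
  exact (den_pos z s hz0 hz1 hs).ne'

lemma R_rec (z : ℝ) (hz0 : 0 < z) (hz1 : z < 1) (l : ℕ) :
    z * RR' z (l + 1) = RR' z l - 1 / (2 * (l : ℝ) + 1) := by
  have h : RR' z l - z * RR' z (l + 1) = 1 / (2 * (l : ℝ) + 1) := by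
    unfold RR'
    rw [← intervalIntegral.integral_const_mul, ← intervalIntegral.integral_sub
      (intR z hz0 hz1 l) ((intR z hz0 hz1 (l + 1)).const_mul z)]
    have h1 : ∫ s in (0 : ℝ)..1, s ^ (2 * l) = 1 / (2 * (l : ℝ) + 1) := by
      rw [integral_pow]
      simp
    rw [← h1]
    apply intervalIntegral.integral_congr
    intro s hs
    have h2 := (den_pos z s hz0 hz1 hs).ne'
    simp only
    field_simp
    ring
  linarith

/-- the coefficients of `PP` -/
noncomputable def co : ℕ → ℝ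
  | 0 => 19 / 60
  | 1 => 2023 / 300
  | 2 => -(6559 / 400)
  | 3 => 157 / 10
  | 4 => -(259 / 40)
  | 5 => 21 / 16
  | _ => 0

lemma int_PP (z : ℝ) (hz0 : 0 < z) (hz1 : z < 1) :
    ∫ s in (0 : ℝ)..1, PP (s ^ 2) / (1 - z * s ^ 2) =
      19 / 60 * RR' z 0 + 2023 / 300 * RR' z 1 - 6559 / 400 * RR' z 2 + 157 / 10 * RR' z 3
        - 259 / 40 * RR' z 4 + 21 / 16 * RR' z 5 := by
  have h1 : ∫ s in (0 : ℝ)..1, PP (s ^ 2) / (1 - z * s ^ 2) =
      ∫ s in (0 : ℝ)..1, ∑ i ∈ Finset.range 6, co i * (s ^ (2 * i) / (1 - z * s ^ 2)) := by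
    apply intervalIntegral.integral_congr
    intro s _
    simp only [Finset.sum_range_succ, Finset.sum_range_zero, co, PP]
    ring
  rw [h1, intervalIntegral.integral_finsetSum
    (fun i _ => (intR z hz0 hz1 i).const_mul (co i))]
  simp only [intervalIntegral.integral_const_mul]
  have h2 : ∀ i : ℕ, (∫ s in (0 : ℝ)..1, s ^ (2 * i) / (1 - z * s ^ 2)) = RR' z i :=
    fun i => rfl
  simp only [h2, Finset.sum_range_succ, Finset.sum_range_zero, co]
  ring

theorem hhb : S_HHb := by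
  intro z F hz0 hz1 hF0 hF1 hF
  have hz : z ≠ 0 := hz0.ne'
  rw [int_PP z hz0 hz1]
  have hR0 : RR' z 0 = F 0 := by
    rw [hF0, RR']
    simp
  have r0 := R_rec z hz0 hz1 0
  have r1 := R_rec z hz0 hz1 1
  have r2 := R_rec z hz0 hz1 2
  have r3 := R_rec z hz0 hz1 3
  have r4 := R_rec z hz0 hz1 4
  have f0 := hF 0
  have f1 := hF 1
  have f2 := hF 2
  have f3 := hF 3
  have f4 := hF 4
  norm_num at r0 r1 r2 r3 r4 f0 f1 f2 f3 f4
  rw [hR0] at r0
  rw [hR0]
  generalize RR' z 1 = R1 at *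
  generalize RR' z 2 = R2 at *
  generalize RR' z 3 = R3 at *
  generalize RR' z 4 = R4 at *
  generalize RR' z 5 = R5 at *
  simp only [LL]
  clear hF hF0 hR0
  generalize F 0 = F0 at *
  generalize F 1 = F1 at *
  generalize F 2 = F2 at *
  generalize F 3 = F3 at *
  generalize F 4 = F4 at *
  generalize F 5 = F5 at *
  generalize F 6 = F6 at *
  have e1 : F1 = (F0 - 1) / z := by field_simp; linarith
  have e2 : F2 = (3 * F1 - F0) / (2 * z) := by field_simp; linarith
  have e3 : F3 = (5 * F2 - 2 * F1) / (3 * z) := by field_simp; linarith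
  have e4 : F4 = (7 * F3 - 3 * F2) / (4 * z) := by field_simp; linarith
  have e5 : F5 = (9 * F4 - 4 * F3) / (5 * z) := by field_simp; linarith
  have e6 : F6 = (11 * F5 - 5 * F4) / (6 * z) := by field_simp; linarith
  have g1 : R1 = (F0 - 1) / z := by field_simp; linarith
  have g2 : R2 = (R1 - 1 / 3) / z := by field_simp; linarith
  have g3 : R3 = (R2 - 1 / 5) / z := by field_simp; linarith
  have g4 : R4 = (R3 - 1 / 7) / z := by field_simp; linarith
  have g5 : R5 = (R4 - 1 / 9) / z := by field_simp; linarith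
  rw [g5, g4, g3, g2, g1, e6, e5, e4, e3, e2, e1]
  field_simp
  ring

end Pool.Agent.W403.ET
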